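import Pool.Agent.MP_c22ba5_pr.H86.Final

/-! Maximal `p`-th moment of a centred diagonal Gaussian quadratic form:
`M_{n,p} = E |g^2 - 1|^p` for all `n ≥ 1` and all real `p > 2`. -/

open MeasureTheory ProbabilityTheory

namespace Pool.Agent.Results.MP_c22ba5_pr.MaxMoment

open Pool.Agent.MP_c22ba5_pr.H86

theorem result {Ω : Type*} [MeasurableSpace Ω] (P : Measure Ω) [IsProbabilityMeasure P]
    (n : ℕ) (hn : 1 ≤ n) (g : Fin n → Ω → ℝ) (hg : ∀ i, HasLaw (g i) (gaussianReal 0 1) P)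
    (hind : iIndepFun g P) (p : ℝ) (hp : 2 < p) :
    (∀ a : Fin n → ℝ, Integrable (fun w => |∑ i, a i * (g i w ^ 2 - 1)| ^ p) P) ∧
      IsGreatest {m : ℝ | ∃ a : Fin n → ℝ, ∑ i, a i ^ 2 = 1 ∧
          m = ∫ w, |∑ i, a i * (g i w ^ 2 - 1)| ^ p ∂P}
        (∫ y, |y ^ 2 - 1| ^ p ∂(gaussianReal 0 1)) := by
  have hq : 0 < p - 2 := by linarith
  have hL : HasLaw (fun w i => g i w) (μ n) P := hind.hasLaw_pi hg
  have pg : ∀ a : Fin n → ℝ, PG fun x : Fin n → ℝ => |S a x| ^ p := fun a =>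
    (PG.abs_rpow (by linarith)).comp (PG_S a)
  have e : ∀ a : Fin n → ℝ, ∫ w, |∑ i, a i * (g i w ^ 2 - 1)| ^ p ∂P = F (p - 2) a := fun a => by
    have := hL.integral_comp (pg a).1.aestronglyMeasurable
    simp only [F, sub_add_cancel]
    exact this
  have e2 : ∫ y, |y ^ 2 - 1| ^ p ∂(gaussianReal 0 1) = ∫ y, |y ^ 2 - 1| ^ (p - 2 + 2) ∂γ := by
    rw [sub_add_cancel]
  refine ⟨fun a => ?_, ⟨Pi.single ⟨0, hn⟩ 1, ?_, ?_⟩, ?_⟩
  · have h1 := (pg a).integrable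
    rw [← hL.map_eq] at h1
    exact (integrable_map_measure (hL.map_eq ▸ (pg a).1.aestronglyMeasurable) hL.aemeasurable).1 h1
  · rw [Finset.sum_eq_single ⟨0, hn⟩ (fun k _ hk => by simp [hk]) (by simp)]
    simp
  · rw [e, e2, F_single hq]
  · rintro m ⟨a, ha, rfl⟩
    rw [e, e2]
    exact F_le hq a ha

end Pool.Agent.Results.MP_c22ba5_pr.MaxMoment
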